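import Pool.Agent.H25.CFL.Targets

/-!
# MP_e37c09_lc, row NA1: no splitting at ordinals whose cofinality is less than their cardinality
-/

set_option autoImplicit false

open Ordinal Cardinal Order Set
open scoped ZFSet

universe u

namespace Pool.Agent.H89.CFL

open _root_.HD Pool.Agent.H25.CFL

theorem pf_NA1 (hVG : T_VG.{u}) : T_NA1.{u} := by
  intro M lam hl hcard s _ hfun hpos
  obtain ⟨B, hB, -, e, he⟩ := hVG lam hl
  have h1 : ∀ i : Iio lam.card.ord, ∃ a : Iio lam.cof.ord, s (e a.1) i.1 := by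
    rintro ⟨i, hi⟩
    obtain ⟨b, -, hbB, hbs, -⟩ := hpos i hi B hB
    obtain ⟨a, ha, rfl⟩ := he b hbB
    exact ⟨⟨a, ha⟩, hbs⟩
  choose f hf using h1
  have hinj : Function.Injective f := by
    intro i i' h
    have h2 := hf i
    rw [h] at h2
    exact Subtype.ext (hfun _ _ _ h2 (hf i'))
  have h3 := Cardinal.mk_le_of_injective hinj
  rw [Cardinal.mk_Iio_ordinal, Cardinal.mk_Iio_ordinal, Cardinal.card_ord, Cardinal.card_ord,
    Cardinal.lift_le] at h3
  exact absurd hcard (not_lt.2 h3)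

end Pool.Agent.H89.CFL
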